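import Pool.Agent.N299.PX.Stm

/-!
Project PX: purely infinite C*-algebras are nowhere scattered.
-/

set_option autoImplicit false

noncomputable section

open Filter Topology

namespace Pool.Agent.N403.PX

open Pool.Agent.N299 Pool.Agent.N299.ND.Pub Pool.Agent.N299.PX Pool.Agent.N299.PX.Pub
open scoped InnerProductSpace ComplexConjugate

section

variable {H : Type} [NormedAddCommGroup H] [InnerProductSpace ℂ H] [CompleteSpace H]

/-- rank one operators -/
def ro (x y : H) : H →L[ℂ] H := InnerProductSpace.rankOne ℂ x y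

lemma ro_apply (x y z : H) : ro x y z = ⟪y, z⟫_ℂ • x := rfl

lemma ro_compact (x y : H) : IsCompactOperator (ro x y) := by
  have h1 : IsCompactOperator (innerSL ℂ y : H →L[ℂ] ℂ) :=
    isCompactOperator_of_locallyCompactSpace_dom _
  exact h1.clm_comp (ContinuousLinearMap.toSpanSingleton ℂ x)

lemma inner_star_mul (T : H →L[ℂ] H) (v w : H) : ⟪v, (star T * T) w⟫_ℂ = ⟪T v, T w⟫_ℂ := by
  rw [mul_apply_eq_comp, ContinuousLinearMap.star_eq_adjoint,
    ContinuousLinearMap.adjoint_inner_right]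

end

lemma pos_add' {A : Type} [NonUnitalCStarAlgebra A] (x y : A) :
    ∃ z : A, star x * x + star y * y = star z * z := by
  let _ : PartialOrder A := CStarAlgebra.spectralOrder A
  have : StarOrderedRing A := CStarAlgebra.spectralOrderedRing A
  exact CStarAlgebra.nonneg_iff_eq_star_mul_self.1
    (add_nonneg (star_mul_self_nonneg x) (star_mul_self_nonneg y))

section

variable {A : Type} [NonUnitalCStarAlgebra A] (L : NonUnitalStarSubalgebra ℂ A)
  (hid : ∀ x ∈ L, ∀ y : A, x * y ∈ L ∧ y * x ∈ L)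
  {H : Type} [NormedAddCommGroup H] [InnerProductSpace ℂ H] [CompleteSpace H]
  (π : L →⋆ₙₐ[ℂ] (H →L[ℂ] H))

include hid

lemma case1 (hC : Compar A) (hπ : Continuous π) (ξ η : H) (hξ : ⟪ξ, ξ⟫_ℂ = 1)
    (hη : ⟪η, η⟫_ℂ = 1) (hξη : ⟪ξ, η⟫_ℂ = 0) (x w : L) (hx : π x = ro ξ ξ)
    (hw : π w = ro ξ η) : False := by
  have hηξ : ⟪η, ξ⟫_ℂ = 0 := by rw [← inner_conj_symm, hξη, map_zero]
  obtain ⟨y, hy⟩ : ∃ y : L, y = x * x := ⟨_, rfl⟩
  have hy1 : ∀ v, π y v = ⟪ξ, v⟫_ℂ • ξ := by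
    intro v
    rw [hy, map_mul, hx, mul_apply_eq_comp, ro_apply, ro_apply, inner_smul_right, hξ,
      mul_one]
  obtain ⟨z, hz⟩ := pos_add' ((y : A) * x) ((y : A) * w)
  obtain ⟨b, hb⟩ : ∃ b : A, b = star (y : A) * y := ⟨_, rfl⟩
  have ha : star ((y : A) * x) * ((y : A) * x) + star ((y : A) * w) * ((y : A) * w) =
      star (x : A) * b * x + star (w : A) * b * w := by
    rw [hb]
    simp only [star_mul, mul_assoc]
  obtain ⟨X, hX⟩ := hC (star (x : A) * b * x + star (w : A) * b * w) b ⟨z, ha ▸ hz⟩ ⟨y, hb⟩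
    (subset_closure (Submodule.add_mem _ (Submodule.subset_span ⟨_, _, rfl⟩)
      (Submodule.subset_span ⟨_, _, rfl⟩)))
  obtain ⟨S, hS⟩ : ∃ S : ℕ → L, ∀ k, (S k : A) = x * X k :=
    ⟨fun k => ⟨x * X k, (hid x x.2 (X k)).1⟩, fun _ => rfl⟩
  obtain ⟨a, ha2⟩ : ∃ a : L, a = star (y * x) * (y * x) + star (y * w) * (y * w) := ⟨_, rfl⟩
  have hconv : Tendsto (fun k => star (x * S k) * (x * S k)) atTop (𝓝 a) := by
    rw [tendsto_subtype_rng]
    have e1 : ((a : L) : A) = star (x : A) * b * x + star (w : A) * b * w := by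
      rw [← ha, ha2]
      rfl
    rw [e1]
    refine hX.congr fun k => ?_
    have e2 : ((star (x * S k) * (x * S k) : L) : A) =
        star ((x : A) * (S k : A)) * ((x : A) * (S k : A)) := rfl
    have e3 : (y : A) = x * x := by rw [hy]; rfl
    rw [e2, hS, hb, e3]
    simp only [star_mul, mul_assoc]
  have h2 : Tendsto (fun k => π (star (x * S k) * (x * S k))) atTop (𝓝 (π a)) :=
    (hπ.tendsto _).comp hconv
  have h3 : ∀ v v' : H, Tendsto (fun k => ⟪v, π (star (x * S k) * (x * S k)) v'⟫_ℂ) atTop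
      (𝓝 ⟪v, π a v'⟫_ℂ) := by
    intro v v'
    have h4 : Continuous fun T : H →L[ℂ] H => ⟪v, T v'⟫_ℂ :=
      continuous_const.inner (continuous_id.clm_apply continuous_const)
    exact (h4.tendsto _).comp h2
  have h4 : ∀ (v v' : H) (k : ℕ), ⟪v, π (star (x * S k) * (x * S k)) v'⟫_ℂ =
      conj ⟪ξ, π (S k) v⟫_ℂ * ⟪ξ, π (S k) v'⟫_ℂ := by
    intro v v' k
    rw [map_mul π (star (x * S k)), map_star, inner_star_mul, map_mul, hx,
      mul_apply_eq_comp, mul_apply_eq_comp, ro_apply, ro_apply,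
      inner_smul_left, inner_smul_right, hξ, mul_one]
  have h5 : ∀ v v' : H, ⟪v, π a v'⟫_ℂ =
      conj ⟪ξ, v⟫_ℂ * ⟪ξ, v'⟫_ℂ + conj ⟪η, v⟫_ℂ * ⟪η, v'⟫_ℂ := by
    intro v v'
    rw [ha2, map_add, add_apply, inner_add_right, map_mul π (star (y * x)),
      map_mul π (star (y * w)), map_star, map_star, inner_star_mul, inner_star_mul, map_mul, map_mul,
      hx, hw]
    simp only [mul_apply_eq_comp, ro_apply, hy1, inner_smul_left, inner_smul_right, hξ,
      mul_one]
    ring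
  have l1 := h3 ξ ξ
  have l2 := h3 η η
  have l3 := h3 ξ η
  have l4 := h3 η ξ
  have l5 := l1.mul l2
  have l6 := l3.mul l4
  rw [h5, h5] at l5 l6
  rw [hξ, hη, hξη, hηξ] at l5 l6
  have l7 := tendsto_nhds_unique (l5.congr fun k => by
    rw [h4, h4]
    show _ = ⟪ξ, π (star (x * S k) * (x * S k)) η⟫_ℂ * ⟪η, π (star (x * S k) * (x * S k)) ξ⟫_ℂ
    rw [h4, h4]
    ring) l6
  simp at l7

lemma case2 (ξ : H) (hξ : ⟪ξ, ξ⟫_ℂ = 1) (hall : ∀ v, v = ⟪ξ, v⟫_ℂ • ξ) (x : L)
    (hx : π x = ro ξ ξ) : ∃ φ : A →⋆ₙₐ[ℂ] ℂ, ∃ a, φ a ≠ 0 := by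
  obtain ⟨χ, hχ⟩ : ∃ χ : L → ℂ, ∀ z, χ z = ⟪ξ, π z ξ⟫_ℂ := ⟨fun z => ⟪ξ, π z ξ⟫_ℂ, fun _ => rfl⟩
  have hz : ∀ z : L, π z ξ = χ z • ξ := fun z => by rw [hχ]; exact hall _
  have hmul : ∀ y z : L, χ (y * z) = χ y * χ z := by
    intro y z
    rw [hχ (y * z), map_mul, mul_apply_eq_comp, hz z, map_smul, hz y, inner_smul_right,
      inner_smul_right, hξ, mul_one, mul_comm]
  have hadd : ∀ y z : L, χ (y + z) = χ y + χ z := by
    intro y z
    rw [hχ, hχ, hχ, map_add, add_apply, inner_add_right]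
  have hsmul : ∀ (c : ℂ) (z : L), χ (c • z) = c * χ z := by
    intro c z
    rw [hχ, hχ, map_smul, smul_apply, inner_smul_right]
  have hzero : χ 0 = 0 := by
    rw [hχ, map_zero, zero_apply, inner_zero_right]
  have hstar : ∀ z : L, χ (star z) = conj (χ z) := by
    intro z
    rw [hχ, hχ, map_star, ContinuousLinearMap.star_eq_adjoint,
      ContinuousLinearMap.adjoint_inner_right, inner_conj_symm]
  have hx1 : χ x = 1 := by
    rw [hχ, hx, ro_apply, hξ, one_smul, hξ]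
  obtain ⟨m, hm⟩ : ∃ m : A → L, ∀ a, (m a : A) = x * a :=
    ⟨fun a => ⟨x * a, (hid x x.2 a).1⟩, fun _ => rfl⟩
  obtain ⟨m', hm'⟩ : ∃ m' : A → L, ∀ a, (m' a : A) = a * x :=
    ⟨fun a => ⟨a * x, (hid x x.2 a).2⟩, fun _ => rfl⟩
  have hmm : ∀ a, χ (m' a) = χ (m a) := by
    intro a
    have e : x * m' a = m a * x := by
      apply Subtype.ext
      show (x : A) * (m' a : A) = (m a : A) * (x : A)
      rw [hm, hm', mul_assoc]
    have e2 := congrArg χ e
    rwa [hmul, hmul, hx1, one_mul, mul_one] at e2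
  let φ : A →⋆ₙₐ[ℂ] ℂ :=
    { toFun := fun a => χ (m a)
      map_smul' := fun c a => by
        show χ (m (c • a)) = c * χ (m a)
        rw [← hsmul]
        congr 1
        apply Subtype.ext
        show (m (c • a) : A) = c • (m a : A)
        rw [hm, hm, mul_smul_comm]
      map_zero' := by
        rw [← hzero]
        congr 1
        apply Subtype.ext
        show (m 0 : A) = 0
        rw [hm, mul_zero]
      map_add' := fun a a' => by
        rw [← hadd]
        congr 1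
        apply Subtype.ext
        show (m (a + a') : A) = (m a : A) + (m a' : A)
        rw [hm, hm, hm, mul_add]
      map_mul' := fun a a' => by
        show χ (m (a * a')) = χ (m a) * χ (m a')
        rw [← hmm a', ← hmul]
        have e : m (a * a') * x = m a * m' a' := by
          apply Subtype.ext
          show (m (a * a') : A) * (x : A) = (m a : A) * (m' a' : A)
          rw [hm, hm, hm']
          simp only [mul_assoc]
        rw [← e, hmul, hx1, mul_one]
      map_star' := fun a => by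
        show χ (m (star a)) = conj (χ (m a))
        rw [← hstar]
        have e : x * star (m a) = m (star a) * star x := by
          apply Subtype.ext
          show (x : A) * star (m a : A) = (m (star a) : A) * star (x : A)
          rw [hm, hm, star_mul]
          simp only [mul_assoc]
        have e2 := congrArg χ e
        rw [hmul, hmul, hx1, one_mul, hstar x, hx1, map_one, mul_one] at e2
        exact e2.symm }
  refine ⟨φ, x, ?_⟩
  show χ (m x) ≠ 0
  have e : m x = x * x := Subtype.ext (hm x)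
  rw [e, hmul, hx1]
  norm_num

end

/-- **PINS** -/
theorem t_PINS : S_PINS := by
  intro A _ hPI L hL hid H _ _ _ _ π hπ
  have hLc : IsClosed (L : Set A) := hL
  have hπc : Continuous π := AddMonoidHomClass.continuous_of_bound π 1 fun x => by
    rw [one_mul]
    exact NonUnitalStarAlgHom.norm_apply_le π x
  obtain ⟨v, hv⟩ := exists_ne (0 : H)
  obtain ⟨ξ, hξ0⟩ : ∃ ξ : H, ξ = ((‖v‖⁻¹ : ℝ) : ℂ) • v := ⟨_, rfl⟩
  have hn : ‖v‖ ≠ 0 := norm_ne_zero_iff.2 hv
  have hξn : ‖ξ‖ = 1 := by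
    rw [hξ0, norm_smul, Complex.norm_real, norm_inv, norm_norm, inv_mul_cancel₀ hn]
  have hξ : ⟪ξ, ξ⟫_ℂ = 1 := by
    rw [inner_self_eq_norm_sq_to_K, hξn]
    simp
  obtain ⟨x, hx⟩ := (hπ (ro ξ ξ)).2 (ro_compact ξ ξ)
  by_cases hη : ∃ η : H, ⟪η, η⟫_ℂ = 1 ∧ ⟪ξ, η⟫_ℂ = 0
  · obtain ⟨η, hη1, hη0⟩ := hη
    obtain ⟨w, hw⟩ := (hπ (ro ξ η)).2 (ro_compact ξ η)
    exact case1 L hid π hPI.2 hπc ξ η hξ hη1 hη0 x w hx hw
  · refine hPI.1 (case2 L hid π ξ hξ ?_ x hx)
    intro u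
    by_contra hne
    apply hη
    obtain ⟨r, hr⟩ : ∃ r : H, r = u - ⟪ξ, u⟫_ℂ • ξ := ⟨_, rfl⟩
    have hr0 : r ≠ 0 := by
      intro h
      rw [hr, sub_eq_zero] at h
      exact hne h
    have hrn : ‖r‖ ≠ 0 := norm_ne_zero_iff.2 hr0
    have hrξ : ⟪ξ, r⟫_ℂ = 0 := by
      rw [hr, inner_sub_right, inner_smul_right, hξ, mul_one, sub_self]
    refine ⟨((‖r‖⁻¹ : ℝ) : ℂ) • r, ?_, ?_⟩
    · have h1 : ‖((‖r‖⁻¹ : ℝ) : ℂ) • r‖ = 1 := by
        rw [norm_smul, Complex.norm_real, norm_inv, norm_norm, inv_mul_cancel₀ hrn]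
      rw [inner_self_eq_norm_sq_to_K, h1]
      simp
    · rw [inner_smul_right, hrξ, mul_zero]

end Pool.Agent.N403.PX
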